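import Mathlib

/-!
Quadratic forms in `k`-th powers, `k` even: the Hasse principle fails for all large `s`.

`Q(x) = (x₀ - 2 x₁)² + x₀ x₂ + x₂² + x₃² + ... ` is nonsingular, and for `k` even the only real
zeros of `Q(y₀ᵏ, y₁ᵏ, ...)` are those with `y₀ᵏ = 2 y₁ᵏ` and all other coordinates `0`.
-/

namespace Pool.Agent.Results.MP_c0a553_nt.EvenDegreesFail

open Finset

/-- The form `Q(y₁ᵏ, ..., yₛᵏ)`, where `Q(x) = ∑ i, ∑ j, A i j * x i * x j`, has a nontrivial zero
over the field `K`. -/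
def HasZero {s : ℕ} (A : Matrix (Fin s) (Fin s) ℚ) (k : ℕ) (K : Type) [Field K] [Algebra ℚ K] :
    Prop :=
  ∃ y : Fin s → K, y ≠ 0 ∧ ∑ i, ∑ j, algebraMap ℚ K (A i j) * y i ^ k * y j ^ k = 0

/-- Every form `Q(y₁ᵏ, ..., yₛᵏ)` with `Q` a nonsingular rational quadratic form in `s` variables
(given by its symmetric matrix) satisfies the Hasse principle. -/
def HassePrinciple (k s : ℕ) : Prop :=
  ∀ A : Matrix (Fin s) (Fin s) ℚ, A.IsSymm → A.det ≠ 0 →
    HasZero A k ℝ → (∀ (p : ℕ) [Fact p.Prime], HasZero A k ℚ_[p]) → HasZero A k ℚ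

/-! ### The `p`-adic solubility of `∑ yᵢᵀ` -/

/-- Hensel's lemma for `X ^ T + c`. -/
theorem hensel_pow (p : ℕ) [hp : Fact p.Prime] (T : ℕ) (u c : ℤ_[p])
    (h : ‖u ^ T + c‖ < ‖(T : ℤ_[p]) * u ^ (T - 1)‖ ^ 2) :
    ∃ z : ℤ_[p], z ^ T + c = 0 ∧ ‖z - u‖ < ‖(T : ℤ_[p]) * u ^ (T - 1)‖ := by
  let F : Polynomial ℤ_[p] := Polynomial.X ^ T + Polynomial.C c
  have h1 : ∀ x : ℤ_[p], F.aeval x = x ^ T + c := by
    intro x; simp [F]
  have h2 : ∀ x : ℤ_[p], F.derivative.aeval x = (T : ℤ_[p]) * x ^ (T - 1) := by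
    intro x
    rw [Polynomial.derivative_add, Polynomial.derivative_X_pow, Polynomial.derivative_C]
    simp
  obtain ⟨z, hz1, hz2, -⟩ := hensels_lemma (F := F) (a := u) (by rw [h1, h2]; exact h)
  rw [h1] at hz1
  rw [h2] at hz2
  exact ⟨z, hz1, hz2⟩

theorem norm_natCast_eq (p : ℕ) [hp : Fact p.Prime] (T : ℕ) (hT : T ≠ 0) :
    ‖(T : ℤ_[p])‖ = (p : ℝ) ^ (-(padicValNat p T : ℤ)) := by
  rw [PadicInt.norm_def, PadicInt.coe_natCast,
    Padic.norm_eq_zpow_neg_valuation (by exact_mod_cast hT), Padic.valuation_natCast]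

/-- A sum of `T ^ 3` or more `T`-th powers has a nontrivial `p`-adic zero. -/
theorem padic_zero (p : ℕ) [hp : Fact p.Prime] (T n : ℕ) (hT : 2 ≤ T) (hn : T ^ 3 ≤ n) :
    ∃ y : Fin n → ℤ_[p], y ≠ 0 ∧ ∑ i, y i ^ T = 0 := by
  classical
  have hT0 : T ≠ 0 := by omega
  by_cases hpT : p ∣ T
  · -- here `p ^ c - 1` ones and one `T`-th root of `1 - p ^ c`
    obtain ⟨v, hv⟩ : ∃ v, v = padicValNat p T := ⟨_, rfl⟩
    have hpv : p ^ v ∣ T := by rw [hv]; exact pow_padicValNat_dvd
    have hpvT : p ^ v ≤ T := Nat.le_of_dvd (by omega) hpv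
    have hpT' : p ≤ T := Nat.le_of_dvd (by omega) hpT
    obtain ⟨c, hc⟩ : ∃ c, c = 2 * v + 1 := ⟨_, rfl⟩
    have hpc : p ^ c ≤ T ^ 3 := by
      calc p ^ c = p ^ v * p ^ v * p := by rw [hc]; ring
        _ ≤ T * T * T := by gcongr
        _ = T ^ 3 := by ring
    have hp1 : 1 < p := hp.out.one_lt
    have hpc1 : 1 < p ^ c := Nat.one_lt_pow (by omega) hp1
    have hnorm : ‖(1 : ℤ_[p]) ^ T + ((p : ℤ_[p]) ^ c - 1)‖ <
        ‖(T : ℤ_[p]) * (1 : ℤ_[p]) ^ (T - 1)‖ ^ 2 := by
      rw [one_pow, one_pow, mul_one, add_sub_cancel, norm_natCast_eq p T hT0, ← hv,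
        PadicInt.norm_p_pow, ← zpow_natCast ((p : ℝ) ^ (-(v : ℤ))) 2, ← zpow_mul]
      apply zpow_lt_zpow_right₀ (by exact_mod_cast hp1)
      rw [hc]
      push_cast
      linarith
    obtain ⟨z, hz, -⟩ := hensel_pow p T 1 _ hnorm
    have hz' : z ^ T = 1 - (p : ℤ_[p]) ^ c := by linear_combination hz
    refine ⟨fun i => if i.val = 0 then z else if i.val < p ^ c then 1 else 0, ?_, ?_⟩
    · intro h
      have h1 := congrFun h ⟨1, by omega⟩
      simp [hpc1] at h1
    · have hsum : ∀ m : ℕ, p ^ c ≤ m → ∑ i : Fin m,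
          (if i.val = 0 then z else if i.val < p ^ c then (1 : ℤ_[p]) else 0) ^ T =
          z ^ T + ((p ^ c - 1 : ℕ) : ℤ_[p]) := by
        intro m hm
        rw [Fin.sum_univ_eq_sum_range (fun i =>
          (if i = 0 then z else if i < p ^ c then (1 : ℤ_[p]) else 0) ^ T) m]
        rw [← Finset.sum_range_add_sum_Ico _ hm]
        have h2 : ∑ i ∈ Finset.Ico (p ^ c) m,
            (if i = 0 then z else if i < p ^ c then (1 : ℤ_[p]) else 0) ^ T = 0 := by
          apply Finset.sum_eq_zero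
          intro i hi
          rw [Finset.mem_Ico] at hi
          rw [if_neg (by omega), if_neg (by omega), zero_pow hT0]
        rw [h2, add_zero]
        obtain ⟨q, hq⟩ : ∃ q, p ^ c = q + 1 := ⟨p ^ c - 1, by omega⟩
        rw [hq, Finset.sum_range_succ']
        have h3 : ∑ i ∈ Finset.range q,
            (if i + 1 = 0 then z else if i + 1 < q + 1 then (1 : ℤ_[p]) else 0) ^ T =
              (q : ℤ_[p]) := by
          rw [Finset.sum_congr rfl (g := fun _ => (1 : ℤ_[p]))]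
          · simp
          · intro i hi
            rw [Finset.mem_range] at hi
            rw [if_neg (by omega), if_pos (by omega), one_pow]
        rw [h3]
        simp
        ring
      rw [hsum n (by omega), hz', Nat.cast_sub (by omega)]
      push_cast
      ring
  · -- Chevalley-Warning and Hensel
    have hTn : T + 1 ≤ n := by
      have : T + 1 ≤ T ^ 3 := by nlinarith [Nat.mul_le_mul hT hT, pow_succ T 2, sq_nonneg T]
      omega
    let f : MvPolynomial (Fin (T + 1)) (ZMod p) := ∑ i, MvPolynomial.X i ^ T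
    have hdeg : f.totalDegree < Fintype.card (Fin (T + 1)) := by
      rw [Fintype.card_fin]
      refine lt_of_le_of_lt (MvPolynomial.totalDegree_finsetSum _ _) ?_
      rw [Nat.lt_succ_iff, Finset.sup_le_iff]
      intro i _
      exact (MvPolynomial.totalDegree_pow _ _).trans (by simp)
    have hdvd := char_dvd_card_solutions p hdeg
    have hz : MvPolynomial.eval (0 : Fin (T + 1) → ZMod p) f = 0 := by
      simp [f, show T ≠ 0 by omega]
    have hcard : 1 < Fintype.card {x : Fin (T + 1) → ZMod p // MvPolynomial.eval x f = 0} := by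
      have hpos : 0 < Fintype.card {x : Fin (T + 1) → ZMod p // MvPolynomial.eval x f = 0} :=
        Fintype.card_pos_iff.2 ⟨⟨0, hz⟩⟩
      exact lt_of_lt_of_le hp.out.one_lt (Nat.le_of_dvd hpos hdvd)
    obtain ⟨⟨a, ha⟩, hne⟩ := Fintype.exists_ne_of_one_lt_card hcard ⟨0, hz⟩
    have ha0 : a ≠ 0 := fun h => hne (by simp [h])
    obtain ⟨i₀, hi₀⟩ := Function.ne_iff.1 ha0
    have hsum0 : ∑ i, a i ^ T = 0 := by simpa [f] using ha
    -- lift
    obtain ⟨b, hb⟩ : ∃ b : Fin (T + 1) → ℤ_[p], ∀ i, PadicInt.toZMod (b i) = a i :=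
      ⟨fun i => ((a i).val : ℤ_[p]), fun i => by simp⟩
    obtain ⟨C, hC⟩ : ∃ C : ℤ_[p], C = ∑ i ∈ Finset.univ.erase i₀, b i ^ T := ⟨_, rfl⟩
    have hbC : b i₀ ^ T + C = ∑ i, b i ^ T := by
      rw [hC, Finset.add_sum_erase _ (fun i => b i ^ T) (Finset.mem_univ i₀)]
    have hlt : ∀ x : ℤ_[p], ‖x‖ < 1 ↔ PadicInt.toZMod x = 0 := by
      intro x
      rw [PadicInt.norm_lt_one_iff_dvd, ← Ideal.mem_span_singleton,
        ← PadicInt.maximalIdeal_eq_span_p, ← PadicInt.ker_toZMod, RingHom.mem_ker]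
    have hF1 : ‖b i₀ ^ T + C‖ < 1 := by
      rw [hlt, hbC, map_sum]
      simp only [map_pow, hb]
      exact hsum0
    have hu1 : ‖(T : ℤ_[p])‖ = 1 := by
      rw [norm_natCast_eq p T hT0, padicValNat.eq_zero_of_not_dvd hpT]
      simp
    have hu2 : ‖b i₀‖ = 1 := by
      by_contra hcon
      have hlt1 : ‖b i₀‖ < 1 := lt_of_le_of_ne (PadicInt.norm_le_one _) hcon
      rw [hlt, hb] at hlt1
      exact hi₀ hlt1
    have hF2 : ‖(T : ℤ_[p]) * b i₀ ^ (T - 1)‖ = 1 := by
      rw [norm_mul, norm_pow, hu1, hu2]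
      simp
    obtain ⟨z, hz1, hz2⟩ := hensel_pow p T (b i₀) C (by rw [hF2]; simpa using hF1)
    have hz0 : z ≠ 0 := by
      rintro rfl
      rw [hF2, zero_sub, norm_neg, hu2] at hz2
      exact lt_irrefl _ hz2
    let w : Fin (T + 1) → ℤ_[p] := Function.update b i₀ z
    have hw : ∑ i, w i ^ T = 0 := by
      rw [← Finset.add_sum_erase _ _ (Finset.mem_univ i₀)]
      have : ∑ i ∈ Finset.univ.erase i₀, w i ^ T = C := by
        rw [hC]
        refine Finset.sum_congr rfl fun i hi => ?_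
        simp [w, Function.update_of_ne (Finset.ne_of_mem_erase hi)]
      rw [this]
      simpa [w] using hz1
    refine ⟨fun i => if h : i.val < T + 1 then w ⟨i.val, h⟩ else 0, ?_, ?_⟩
    · intro h
      have h1 := congrFun h ⟨i₀.val, by omega⟩
      simp only [Pi.zero_apply] at h1
      rw [dif_pos i₀.isLt] at h1
      simp only [w, Fin.eta, Function.update_self] at h1
      exact hz0 h1
    · rw [Fin.sum_univ_eq_sum_range (fun i =>
        (if h : i < T + 1 then w ⟨i, h⟩ else 0) ^ T) n, ← Finset.sum_range_add_sum_Ico _ hTn]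
      have h2 : ∑ i ∈ Finset.Ico (T + 1) n, (if h : i < T + 1 then w ⟨i, h⟩ else 0) ^ T = 0 := by
        apply Finset.sum_eq_zero
        intro i hi
        rw [Finset.mem_Ico] at hi
        rw [dif_neg (by omega), zero_pow (by omega)]
      rw [h2, add_zero, ← Fin.sum_univ_eq_sum_range (fun i =>
        (if h : i < T + 1 then w ⟨i, h⟩ else 0) ^ T) (T + 1)]
      refine Eq.trans (Finset.sum_congr rfl fun i _ => ?_) hw
      rw [dif_pos i.isLt]

/-! ### The form -/

/-- The matrix of `(x₀ - 2 x₁)² + x₀ x₂ + ∑_{i ≥ 2} xᵢ²`, in `n + 3` variables. -/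
def A (n : ℕ) : Matrix (Fin (n + 3)) (Fin (n + 3)) ℚ := fun i j =>
  (if i = j then (if i.val = 1 then 4 else 1) else 0) +
    (if i.val = 0 then (if j.val = 1 then -2 else 0) else 0) +
    (if i.val = 1 then (if j.val = 0 then -2 else 0) else 0) +
    (if i.val = 0 then (if j.val = 2 then 1 / 2 else 0) else 0) +
    (if i.val = 2 then (if j.val = 0 then 1 / 2 else 0) else 0)

theorem A_symm (n : ℕ) : (A n).IsSymm := by
  ext i j
  simp only [Matrix.transpose_apply, A]
  have h1 : (j = i) = (i = j) := by simp [eq_comm]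
  rcases eq_or_ne i j with rfl | h
  · ring
  · rw [if_neg h, if_neg (Ne.symm h)]
    split_ifs <;> first | omega | ring

theorem A_val (n : ℕ) (K : Type) [Field K] [Algebra ℚ K] (x : Fin (n + 3) → K) :
    ∑ i, ∑ j, algebraMap ℚ K (A n i j) * x i * x j =
      (x 0 - 2 * x 1) ^ 2 + x 0 * x 2 + ∑ i : Fin (n + 1), x i.succ.succ ^ 2 := by
  have hd : ∑ i : Fin (n + 3), ∑ j, algebraMap ℚ K
      (if i = j then (if i.val = 1 then 4 else 1) else 0) * x i * x j =
      x 0 ^ 2 + 4 * x 1 ^ 2 + ∑ i : Fin (n + 1), x i.succ.succ ^ 2 := by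
    have h1 : ∀ i : Fin (n + 3), ∑ j, algebraMap ℚ K
      (if i = j then (if i.val = 1 then 4 else 1) else 0) * x i * x j =
        algebraMap ℚ K (if i.val = 1 then 4 else 1) * x i ^ 2 := by
      intro i
      rw [Finset.sum_eq_single i]
      · simp; ring
      · intro j _ hj
        rw [if_neg (Ne.symm hj)]; simp
      · simp
    rw [Finset.sum_congr rfl fun i _ => h1 i, Fin.sum_univ_succ, Fin.sum_univ_succ]
    simp
    ring
  have h2 : ∀ (a b : Fin (n + 3)) (c : ℚ), ∑ i : Fin (n + 3), ∑ j : Fin (n + 3), algebraMap ℚ K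
      (if i.val = a.val then (if j.val = b.val then c else 0) else 0) * x i * x j =
      algebraMap ℚ K c * x a * x b := by
    intro a b c
    rw [Finset.sum_eq_single a, Finset.sum_eq_single b]
    · simp
    · intro j _ hj
      rw [if_pos rfl, if_neg (fun h => hj (Fin.ext h))]; simp
    · simp
    · intro i _ hi
      apply Finset.sum_eq_zero
      intro j _
      rw [if_neg (fun h => hi (Fin.ext h))]; simp
    · simp
  have e0 : ((0 : Fin (n + 3)).val) = 0 := rfl
  have e1 : ((1 : Fin (n + 3)).val) = 1 := rfl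
  have e2 : ((2 : Fin (n + 3)).val) = 2 := by simp
  have h01 := h2 0 1 (-2)
  have h10 := h2 1 0 (-2)
  have h02 := h2 0 2 (1 / 2)
  have h20 := h2 2 0 (1 / 2)
  simp only [e0, e1, e2] at h01 h10 h02 h20
  have hsplit : ∑ i, ∑ j, algebraMap ℚ K (A n i j) * x i * x j =
      (∑ i : Fin (n + 3), ∑ j, algebraMap ℚ K
        (if i = j then (if i.val = 1 then 4 else 1) else 0) * x i * x j) +
      (∑ i : Fin (n + 3), ∑ j : Fin (n + 3), algebraMap ℚ K
        (if i.val = 0 then (if j.val = 1 then -2 else 0) else 0) * x i * x j) +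
      (∑ i : Fin (n + 3), ∑ j : Fin (n + 3), algebraMap ℚ K
        (if i.val = 1 then (if j.val = 0 then -2 else 0) else 0) * x i * x j) +
      (∑ i : Fin (n + 3), ∑ j : Fin (n + 3), algebraMap ℚ K
        (if i.val = 0 then (if j.val = 2 then 1 / 2 else 0) else 0) * x i * x j) +
      (∑ i : Fin (n + 3), ∑ j : Fin (n + 3), algebraMap ℚ K
        (if i.val = 2 then (if j.val = 0 then 1 / 2 else 0) else 0) * x i * x j) := by
    rw [← Finset.sum_add_distrib, ← Finset.sum_add_distrib, ← Finset.sum_add_distrib,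
      ← Finset.sum_add_distrib]
    refine Finset.sum_congr rfl fun i _ => ?_
    rw [← Finset.sum_add_distrib, ← Finset.sum_add_distrib, ← Finset.sum_add_distrib,
      ← Finset.sum_add_distrib]
    refine Finset.sum_congr rfl fun j _ => ?_
    rw [A, map_add, map_add, map_add, map_add]
    ring
  rw [hsplit, hd, h01, h10, h02, h20]
  simp only [map_neg, map_ofNat, map_div₀, map_one]
  have h2' : (2 : K) ≠ 0 := by
    have h := (algebraMap ℚ K).injective.ne (show (2 : ℚ) ≠ 0 by norm_num)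
    rwa [map_ofNat, map_zero] at h
  field_simp
  ring

theorem A_mulVec (n : ℕ) (v : Fin (n + 3) → ℚ) (i : Fin (n + 3)) :
    (A n).mulVec v i = (if i.val = 1 then 4 else 1) * v i +
      (if i.val = 0 then -2 * v 1 else 0) + (if i.val = 1 then -2 * v 0 else 0) +
      (if i.val = 0 then 1 / 2 * v 2 else 0) + (if i.val = 2 then 1 / 2 * v 0 else 0) := by
  have h2 : ∀ (P : Prop) [Decidable P] (b : Fin (n + 3)) (c : ℚ), ∑ j : Fin (n + 3),
      (if P then (if j.val = b.val then c else 0) else 0) * v j = if P then c * v b else 0 := by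
    intro P _ b c
    rw [Finset.sum_eq_single b]
    · rw [if_pos rfl]
      split_ifs <;> simp
    · intro j _ hj
      rw [if_neg (fun h => hj (Fin.ext h))]; simp
    · simp
  have e0 : ((0 : Fin (n + 3)).val) = 0 := rfl
  have e1 : ((1 : Fin (n + 3)).val) = 1 := rfl
  have e2 : ((2 : Fin (n + 3)).val) = 2 := by simp
  have h01 := h2 (i.val = 0) 1 (-2)
  have h10 := h2 (i.val = 1) 0 (-2)
  have h02 := h2 (i.val = 0) 2 (1 / 2)
  have h20 := h2 (i.val = 2) 0 (1 / 2)
  simp only [e0, e1, e2] at h01 h10 h02 h20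
  have hd : ∑ j, (if i = j then (if i.val = 1 then (4 : ℚ) else 1) else 0) * v j =
      (if i.val = 1 then 4 else 1) * v i := by
    rw [Finset.sum_eq_single i]
    · simp
    · intro j _ hj
      rw [if_neg (Ne.symm hj)]; simp
    · simp
  rw [Matrix.mulVec, dotProduct, ← h01, ← h10, ← h02, ← h20, ← hd, ← Finset.sum_add_distrib,
    ← Finset.sum_add_distrib, ← Finset.sum_add_distrib, ← Finset.sum_add_distrib]
  refine Finset.sum_congr rfl fun j _ => ?_
  rw [A]
  ring

theorem A_det (n : ℕ) : (A n).det ≠ 0 := by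
  intro hdet
  obtain ⟨v, hv0, hv⟩ := Matrix.exists_mulVec_eq_zero_iff.2 hdet
  apply hv0
  have e0 : ((0 : Fin (n + 3)).val) = 0 := rfl
  have e1 : ((1 : Fin (n + 3)).val) = 1 := rfl
  have e2 : ((2 : Fin (n + 3)).val) = 2 := by simp
  have h : ∀ i, (A n).mulVec v i = 0 := fun i => congrFun hv i
  have h0 := h 0
  have h1 := h 1
  have h2 := h 2
  rw [A_mulVec] at h0 h1 h2
  simp only [e0, e1, e2] at h0 h1 h2
  norm_num at h0 h1 h2
  have v0 : v 0 = 0 := by linarith
  have v1 : v 1 = 0 := by linarith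
  have v2 : v 2 = 0 := by linarith
  funext i
  by_cases hi0 : i.val = 0
  · rw [show i = 0 from Fin.ext hi0, v0]; rfl
  by_cases hi1 : i.val = 1
  · rw [show i = 1 from Fin.ext hi1, v1]; rfl
  by_cases hi2 : i.val = 2
  · rw [show i = 2 from Fin.ext (by rw [e2]; exact hi2), v2]; rfl
  have h3 := h i
  rw [A_mulVec, if_neg hi1, if_neg hi0, if_neg hi1, if_neg hi0, if_neg hi2] at h3
  simpa using h3

/-- For every even `k > 0` and every `s ≥ 8 k ^ 3 + 3` the Hasse principle fails for some form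
`Q(y₁ᵏ, ..., yₛᵏ)` with `Q` nonsingular. -/
theorem result : ∀ k : ℕ, Even k → 0 < k → ∀ s : ℕ, 8 * k ^ 3 + 3 ≤ s → ¬ HassePrinciple k s := by
  intro k hk hk0 s hs hHP
  obtain ⟨n, rfl⟩ : ∃ n, s = n + 3 := ⟨s - 3, by omega⟩
  have hk2 : 2 ≤ k := by
    obtain ⟨m, rfl⟩ := hk
    omega
  have hval : ∀ (K : Type) [Field K] [Algebra ℚ K] (y : Fin (n + 3) → K),
      ∑ i, ∑ j, algebraMap ℚ K (A n i j) * y i ^ k * y j ^ k =
      (y 0 ^ k - 2 * y 1 ^ k) ^ 2 + y 0 ^ k * y 2 ^ k +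
        ∑ i : Fin (n + 1), (y i.succ.succ ^ k) ^ 2 :=
    fun K _ _ y => A_val n K fun i => y i ^ k
  have hreal : HasZero (A n) k ℝ := by
    refine ⟨fun i => if i.val = 0 then (2 : ℝ) ^ ((k : ℝ)⁻¹) else if i.val = 1 then 1 else 0, ?_, ?_⟩
    · intro h
      have h1 := congrFun h 1
      simp at h1
    · rw [hval]
      have hk' : k ≠ 0 := by omega
      have e2 : ((2 : Fin (n + 3)).val) = 2 := by simp
      have h2 : ((2 : ℝ) ^ ((k : ℝ)⁻¹)) ^ k = 2 := Real.rpow_inv_natCast_pow (by norm_num) hk'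
      have e3 : ¬ ((2 : Fin (n + 3)).val = 0) := by rw [e2]; norm_num
      have e4 : ¬ ((2 : Fin (n + 3)).val = 1) := by rw [e2]; norm_num
      simp only [e3, e4, if_false]
      simp [h2, hk']
  have hpadic : ∀ (p : ℕ) [Fact p.Prime], HasZero (A n) k ℚ_[p] := by
    intro p _
    obtain ⟨y, hy0, hy⟩ := padic_zero p (2 * k) (n + 1) (by omega) (by nlinarith [hs])
    refine ⟨fun i => if h : 2 ≤ i.val then ((y ⟨i.val - 2, by omega⟩ : ℤ_[p]) : ℚ_[p]) else 0,
      ?_, ?_⟩
    · intro h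
      apply hy0
      funext i
      have h1 := congrFun h i.succ.succ
      simp only [Fin.val_succ, Pi.zero_apply] at h1
      rw [dif_pos (by omega)] at h1
      have h2 : y ⟨i.val + 1 + 1 - 2, by omega⟩ = 0 := by
        apply Subtype.ext
        exact h1
      exact h2
    · rw [hval]
      have hk' : k ≠ 0 := by omega
      have e2 : ((2 : Fin (n + 3)).val) = 2 := by simp
      have h3 : ∑ i : Fin (n + 1), ((fun i : Fin (n + 3) => if h : 2 ≤ i.val then
          ((y ⟨i.val - 2, by omega⟩ : ℤ_[p]) : ℚ_[p]) else 0) i.succ.succ ^ k) ^ 2 =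
          ((∑ i, y i ^ (2 * k) : ℤ_[p]) : ℚ_[p]) := by
        rw [PadicInt.coe_sum]
        refine Finset.sum_congr rfl fun i _ => ?_
        simp only [Fin.val_succ]
        rw [dif_pos (by omega)]
        push_cast
        rw [← pow_mul, mul_comm k 2]
      rw [h3, hy]
      simp [hk']
  obtain ⟨y, hy0, hy⟩ := hHP (A n) (A_symm n) (A_det n) hreal hpadic
  rw [hval] at hy
  have hnn : ∀ i, 0 ≤ y i ^ k := fun i => hk.pow_nonneg (y i)
  have hs1 : 0 ≤ ∑ i : Fin (n + 1), (y i.succ.succ ^ k) ^ 2 :=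
    Finset.sum_nonneg fun i _ => sq_nonneg _
  have h1 : (y 0 ^ k - 2 * y 1 ^ k) ^ 2 = 0 := by
    have := mul_nonneg (hnn 0) (hnn 2)
    nlinarith [sq_nonneg (y 0 ^ k - 2 * y 1 ^ k)]
  have h2 : ∑ i : Fin (n + 1), (y i.succ.succ ^ k) ^ 2 = 0 := by
    have := mul_nonneg (hnn 0) (hnn 2)
    nlinarith [sq_nonneg (y 0 ^ k - 2 * y 1 ^ k)]
  have h3 : y 0 ^ k = 2 * y 1 ^ k := by
    have := pow_eq_zero_iff (two_ne_zero) |>.1 h1
    linarith
  have h4 : ∀ i : Fin (n + 1), y i.succ.succ = 0 := by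
    intro i
    have := (Finset.sum_eq_zero_iff_of_nonneg (fun i _ => sq_nonneg _)).1 h2 i (Finset.mem_univ i)
    exact pow_eq_zero_iff (show k ≠ 0 by omega) |>.1 (pow_eq_zero_iff (two_ne_zero) |>.1 this)
  have h5 : y 1 ≠ 0 := by
    intro h
    rw [h, zero_pow (by omega), mul_zero] at h3
    have h6 : y 0 = 0 := pow_eq_zero_iff (show k ≠ 0 by omega) |>.1 h3
    apply hy0
    funext i
    refine Fin.cases h6 (fun i => ?_) i
    refine Fin.cases h (fun i => ?_) i
    exact h4 i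
  have h6 : (y 0 / y 1) ^ k = 2 := by
    rw [div_pow, h3, mul_div_assoc, div_self (pow_ne_zero k h5), mul_one]
  have h7 : padicValRat 2 ((y 0 / y 1) ^ k) = 1 := by
    rw [h6]
    have : ((2 : ℚ)) = ((2 : ℕ) : ℚ) := by norm_num
    rw [this, padicValRat.of_nat]
    simp
  have hne : y 0 / y 1 ≠ 0 := by
    intro h
    rw [h, zero_pow (by omega)] at h6
    norm_num at h6
  rw [padicValRat.pow] at h7
  have h8 : (k : ℤ) ∣ 1 := ⟨_, h7.symm⟩
  have h9 : (k : ℤ) = 1 := by
    have := Int.le_of_dvd one_pos h8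
    omega
  omega

end Pool.Agent.Results.MP_c0a553_nt.EvenDegreesFail
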